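import Pool.Agent.Helper51.GP.B
import Pool.Agent.Helper51.GP.F0

/-!
# GP-F1: one good end point (owner: helper76)

`n = κ / (l E)`, `w = wd l b`.  In `Pack.low` the points with `tr > Y = 2 C (C + 2) L ^ 2 / l`
contribute at most `1 / 4` (`Pack.z1` and `sum_slab` with `θ = l / (2 C L)`), the number of the
others is a power of `b` (`sum_slab` with `θ = 1 / Y`).
-/

set_option autoImplicit false

namespace Pool.Agent.Helper76.GP

open MeasureTheory ProbabilityTheory Filter Pool.Agent.Helper79.GR Pool.Agent.Helper79.GQ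
open Pool.Agent.Helper51.GP
open Pool.Agent.Helper51.NP hiding Pack

variable {Ω : Type*} [MeasurableSpace Ω] {P : Measure Ω} {d : ℕ} {X : ℕ → Edge d → Ω → ℝ}
  {ν : ℕ → Measure ℝ} {δ : ℕ → ℝ} {a K s : ℝ} {m C : ℕ} {u : F d → ℝ} {v : F d}
  {h : F d →L[ℝ] ℝ}

/-- the numbers -/
theorem numbers (d m C : ℕ) (K₀ : ℝ) (hK₀ : 1 ≤ K₀) (hC : 1 ≤ C) : ∃ L₀ : ℕ, ∀ L : ℕ, L₀ ≤ L →
    1 ≤ L ∧ (L : ℝ) ≤ (bb m L : ℕ) ∧ 2 * (C : ℝ) * (C + 2) ≤ (bb m L : ℕ) ∧
    2 * C * Real.exp 1 * K₀ ≤ (bb m L : ℕ) ∧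
    4 * (C : ℝ) ^ 2 * (((bb m L : ℕ) : ℝ) ^ C * (1 / 2) ^ L) ≤ 1 ∧
    C * (Real.exp (-(L : ℝ)) * (K₀ * (2 * C * L * (bb m L : ℕ)) ^ d)) ≤ 1 / 4 := by
  have hC' : (1 : ℝ) ≤ C := by exact_mod_cast hC
  have hC0 : (0 : ℝ) < C := by linarith
  obtain ⟨L₁, h₁⟩ := le_bb m (2 * (C : ℝ) * (C + 2))
  obtain ⟨L₂, h₂⟩ := le_bb m (2 * C * Real.exp 1 * K₀)
  obtain ⟨L₃, h₃⟩ := bb_small m C (1 / (4 * (C : ℝ) ^ 2)) (by positivity)
  obtain ⟨L₄, h₄⟩ := bb_small m (2 * d) (1 / (4 * (C * K₀ * (2 * C) ^ d))) (by positivity)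
  refine ⟨max (max L₁ L₂) (max (max L₃ L₄) 1), fun L hL => ?_⟩
  have e1 : L₁ ≤ L := by omega
  have e2 : L₂ ≤ L := by omega
  have e3 : L₃ ≤ L := by omega
  have e4 : L₄ ≤ L := by omega
  have e5 : 1 ≤ L := by omega
  have hL1 : (1 : ℝ) ≤ L := by exact_mod_cast e5
  have hLb := (h₁ L e1).2.2
  have hb1 : (1 : ℝ) ≤ (bb m L : ℕ) := hL1.trans hLb
  refine ⟨e5, hLb, (h₁ L e1).1, (h₂ L e2).1, ?_, ?_⟩
  · have h5 := h₃ L e3
    rw [le_div_iff₀ (by positivity)] at h5
    linarith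
  · have h5 := h₄ L e4
    rw [le_div_iff₀ (by positivity)] at h5
    have h6 : Real.exp (-(L : ℝ)) ≤ (1 / 2) ^ L := by
      have h7 : Real.exp (-(1 : ℝ)) ≤ 1 / 2 := by
        rw [Real.exp_neg, inv_eq_one_div]
        exact one_div_le_one_div_of_le (by norm_num) (by
          have := Real.add_one_le_exp (1 : ℝ)
          linarith)
      have h8 : Real.exp (-(L : ℝ)) = Real.exp (-(1 : ℝ)) ^ L := by
        rw [← Real.exp_nat_mul]
        congr 1
        ring
      rw [h8]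
      exact pow_le_pow_left₀ (Real.exp_pos _).le h7 L
    have h9 : (2 * C * L * (bb m L : ℕ) : ℝ) ^ d ≤ (2 * C) ^ d * ((bb m L : ℕ) : ℝ) ^ (2 * d) := by
      have h10 : (2 * C * L * (bb m L : ℕ) : ℝ) ≤ (2 * C) * ((bb m L : ℕ) : ℝ) ^ 2 := by
        have := mul_le_mul_of_nonneg_right hLb (show (0 : ℝ) ≤ (bb m L : ℕ) by linarith)
        nlinarith
      refine (pow_le_pow_left₀ (by positivity) h10 d).trans (le_of_eq ?_)
      rw [mul_pow, ← pow_mul]
    calc (C : ℝ) * (Real.exp (-(L : ℝ)) * (K₀ * (2 * C * L * (bb m L : ℕ)) ^ d))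
        ≤ C * ((1 / 2) ^ L * (K₀ * ((2 * C) ^ d * ((bb m L : ℕ) : ℝ) ^ (2 * d)))) := by gcongr
      _ = (((bb m L : ℕ) : ℝ) ^ (2 * d) * (1 / 2) ^ L) * (4 * (C * K₀ * (2 * C) ^ d)) / 4 := by
          ring
      _ ≤ 1 / 4 := by linarith

theorem good_point (hF : Fam P X ν δ a m K u) (hv : h v = 1) (hC : 1 ≤ C) :
    ∃ K₁ : ℕ, 1 ≤ K₁ ∧ ∃ L₀ : ℕ, ∀ L : ℕ, L₀ ≤ L → ∀ (l D E : ℝ) (g : F d →L[ℝ] ℝ),
      Pack P X u v h C L (bb m L) l D E g → ∀ κ : ℝ, 1 ≤ κ → κ ≤ L → ∃ q : V d,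
        κ / (2 * (l * E)) ≤ h (rv q) ∧ h (rv q) ≤ 2 * κ / (l * E) ∧
        tr v h (rv q) ≤ (bb m L : ℕ) ^ K₁ / l ∧
        Real.exp (κ * D / E) - 1 / 4 ≤
          (bb m L : ℕ) ^ K₁ * (Z P (X (bb m L)) l 0 q * Real.exp (l * g (rv q))) := by
  obtain ⟨K₀, hK₀, hs⟩ := Pool.Agent.Helper51.GP.sum_slab v h hv (C : ℝ) (Nat.cast_nonneg C)
  obtain ⟨L₀, hL₀⟩ := numbers d m C K₀ hK₀ hC
  refine ⟨4 * d + 3, by omega, L₀, fun L hL l D E g pk κ hκ hκL => ?_⟩
  obtain ⟨hL1, hLb, hn1, hn2, hn3, hn4⟩ := hL₀ L hL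
  set b : ℕ := bb m L with hb
  set B : ℝ := (b : ℝ) with hB
  have hLr : (1 : ℝ) ≤ L := by exact_mod_cast hL1
  have hB1 : 1 ≤ B := hLr.trans hLb
  have hB0 : 0 < B := by linarith
  have hC' : (1 : ℝ) ≤ C := by exact_mod_cast hC
  have hC0 : (0 : ℝ) < C := by linarith
  have hl := pk.lpos
  have hl1 : l ≤ 1 := pk.lup.trans (pow_le_one₀ (by norm_num) (by norm_num))
  have hE0 : 0 < E := by
    have h1 := pk.DE
    have h2 := pk.D0
    have h3 : 0 < l ^ (2 * d + 2) := pow_pos hl _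
    linarith
  have hE4 : 4 * (C : ℝ) ^ 2 * E ≤ 1 := by
    have h1 : E ≤ B ^ C * (1 / 2) ^ L :=
      pk.EC.trans (mul_le_mul_of_nonneg_left pk.lup (by positivity))
    exact (mul_le_mul_of_nonneg_left h1 (by positivity)).trans hn3
  have hE4' : 4 * (C : ℝ) * E ≤ 1 := by
    have h1 : 4 * (C : ℝ) * E ≤ 4 * (C : ℝ) ^ 2 * E := by
      have h2 : (C : ℝ) ≤ (C : ℝ) ^ 2 := by nlinarith
      nlinarith
    linarith
  have hlE : 0 < l * E := mul_pos hl hE0
  set w : ℕ := wd l b with hw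
  have hlB : 0 < l * B := mul_pos hl hB0
  have hw1 : 1 / (l * B) ≤ w := Nat.le_ceil _
  have hw2 : (w : ℝ) ≤ 1 / (l * B) + 1 := (Nat.ceil_lt_add_one (by positivity)).le
  have hwpos : 1 ≤ w := by
    have : (0 : ℝ) < w := lt_of_lt_of_le (by positivity) hw1
    exact_mod_cast this
  have hwr : (1 : ℝ) ≤ w := by exact_mod_cast hwpos
  have hlw1 : 1 ≤ l * w * B := by
    rw [div_le_iff₀ hlB] at hw1
    linarith
  have hlw2 : l * w ≤ 2 := by
    have h1 : l * w ≤ l * (1 / (l * B) + 1) := mul_le_mul_of_nonneg_left hw2 hl.le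
    have h2 : l * (1 / (l * B) + 1) = 1 / B + l := by
      field_simp
    have h3 : 1 / B ≤ 1 := by
      rw [div_le_one hB0]
      exact hB1
    linarith
  set n : ℝ := κ / (l * E) with hn
  have hlEn : l * E * n = κ := by
    rw [hn]
    field_simp
  -- `2 C w ≤ n`
  have hCw : 2 * (C * (w : ℝ)) ≤ n := by
    rw [hn, le_div_iff₀ hlE]
    have h1 : 2 * (C * (w : ℝ)) * (l * E) = 2 * C * E * (l * w) := by ring
    rw [h1]
    have h2 : 2 * C * E * (l * w) ≤ 2 * C * E * 2 :=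
      mul_le_mul_of_nonneg_left hlw2 (by positivity)
    linarith
  have hCl : C / l ≤ n := by
    rw [hn, le_div_iff₀ hlE]
    have h1 : C / l * (l * E) = C * E := by
      field_simp
    rw [h1]
    nlinarith
  have hCw0 : 0 < C * (w : ℝ) := by positivity
  have hn0 : 0 < n := by linarith
  set K₁ : ℝ := 2 * C * (C + 2) with hK₁
  have hK₁6 : 6 ≤ K₁ := by nlinarith
  set Y : ℝ := K₁ * L ^ 2 / l with hY
  have hY0 : 0 < Y := by positivity
  set R : ℝ := Real.exp (κ * D / E) - 1 / 4 with hR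
  have hR0 : 3 / 4 ≤ R := by
    have h1 : (0 : ℝ) ≤ κ * D / E := div_nonneg (mul_nonneg (by linarith) pk.D0) hE0.le
    have h2 := Real.one_le_exp h1
    linarith
  have hlow := pk.low n hCl
  have hexp : l * n * D = κ * D / E := by
    rw [hn]
    field_simp
  rw [hexp] at hlow
  -- the two transversal scales
  set θ : ℝ := l / (2 * C * L) with hθ
  set θ' : ℝ := 1 / Y with hθ'
  have hθ0 : 0 < θ := by positivity
  have hθ'0 : 0 < θ' := by positivity
  have hθ1 : θ * w ≤ 1 := by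
    have h1 : θ * w = l * w / (2 * C * L) := by
      rw [hθ]
      ring
    rw [h1, div_le_one (by positivity)]
    nlinarith
  have hL2 : (1 : ℝ) ≤ (L : ℝ) ^ 2 := one_le_pow₀ hLr
  have hθ'1 : θ' * w ≤ 1 := by
    have h1 : θ' * w = l * w / (K₁ * L ^ 2) := by
      rw [hθ', hY]
      field_simp
    rw [h1, div_le_one (by positivity)]
    nlinarith
  have hKb : K₁ * L ^ 2 ≤ B ^ 3 := by
    have h1 : (L : ℝ) ^ 2 ≤ B ^ 2 := pow_le_pow_left₀ (by linarith) hLb 2
    calc K₁ * L ^ 2 ≤ B * B ^ 2 := mul_le_mul hn1 h1 (by positivity) hB0.le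
      _ = B ^ 3 := by ring
  set N₁ : ℝ := B ^ (4 * d + 3) with hN₁
  have hN₁0 : 0 < N₁ := by positivity
  by_contra hcon
  push Not at hcon
  have hval : ∀ q : {q : V d // |h (rv (w • q)) - n| ≤ C * w},
      ENNReal.ofReal (Z P (X b) l 0 (w • q.1) * Real.exp (l * g (rv (w • q.1)))) ≤
      ENNReal.ofReal (R / N₁ * Real.exp 1) *
        ENNReal.ofReal (Real.exp (-(θ' * tr v h (rv (w • q.1))))) +
      ENNReal.ofReal (Real.exp (-(L : ℝ))) *
        ENNReal.ofReal (Real.exp (-(θ * tr v h (rv (w • q.1))))) := by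
    intro q
    have hq := abs_le.1 q.2
    set p : V d := w • q.1 with hp
    rcases le_or_gt (tr v h (rv p)) Y with ht | ht
    · -- near
      have h1 : N₁ * (Z P (X b) l 0 p * Real.exp (l * g (rv p))) < R := by
        refine hcon p ?_ ?_ ?_
        · have : κ / (2 * (l * E)) = n / 2 := by
            rw [hn]
            field_simp
          rw [this]
          linarith
        · have : 2 * κ / (l * E) = 2 * n := by
            rw [hn]
            ring
          rw [this]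
          linarith
        · refine ht.trans ?_
          rw [hY]
          refine div_le_div_of_nonneg_right (hKb.trans ?_) hl.le
          exact pow_le_pow_right₀ hB1 (by omega)
      have h2 : Z P (X b) l 0 p * Real.exp (l * g (rv p)) ≤ R / N₁ := by
        rw [le_div_iff₀ hN₁0]
        linarith
      have h3 : Real.exp (-1) ≤ Real.exp (-(θ' * tr v h (rv p))) := by
        refine Real.exp_le_exp.2 (neg_le_neg ?_)
        have h4 : θ' * tr v h (rv p) ≤ θ' * Y := mul_le_mul_of_nonneg_left ht hθ'0.le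
        have h5 : θ' * Y = 1 := by
          rw [hθ']
          field_simp
        linarith
      refine le_trans ?_ le_self_add
      rw [← ENNReal.ofReal_mul (by positivity)]
      refine ENNReal.ofReal_le_ofReal (h2.trans ?_)
      have h6 : R / N₁ = R / N₁ * Real.exp 1 * Real.exp (-1) := by
        rw [mul_assoc, ← Real.exp_add]
        simp
      have h7 : 0 ≤ R / N₁ * Real.exp 1 := by positivity
      exact h6.le.trans (mul_le_mul_of_nonneg_left h3 h7)
    · -- far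
      refine le_trans ?_ le_add_self
      rw [← ENNReal.ofReal_mul (by positivity), ← Real.exp_add]
      refine ENNReal.ofReal_le_ofReal ((pk.z1 p).trans (Real.exp_le_exp.2 ?_))
      have hmax : max (h (rv p)) 0 ≤ n + C * w := by
        refine max_le ?_ (by linarith)
        linarith
      have h1 : C * E * max (h (rv p)) 0 ≤ C * E * (n + C * w) :=
        mul_le_mul_of_nonneg_left hmax (by positivity)
      have h2 : l * (C * E * (n + C * w)) ≤ (C + 1) * L := by
        have h3 : l * (C * E * (n + C * w)) = C * (l * E * n) + C ^ 2 * E * (l * w) := by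
          ring
        rw [h3, hlEn]
        have h4 : C ^ 2 * E * (l * w) ≤ C ^ 2 * E * 2 :=
          mul_le_mul_of_nonneg_left hlw2 (by positivity)
        have h6 : C * κ ≤ C * L := mul_le_mul_of_nonneg_left hκL hC0.le
        linarith
      have h7 : (C + 2) * L ≤ θ * tr v h (rv p) := by
        have h8 : θ * Y = (C + 2) * L := by
          rw [hθ, hY, hK₁]
          field_simp
        have h9 : θ * Y ≤ θ * tr v h (rv p) := mul_le_mul_of_nonneg_left ht.le hθ0.le
        linarith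
      have h10 : l * (tr v h (rv p) / (C * L)) = 2 * (θ * tr v h (rv p)) := by
        rw [hθ]
        field_simp
      have h11 : l * (C * E * max (h (rv p)) 0) ≤ l * (C * E * (n + C * w)) :=
        mul_le_mul_of_nonneg_left h1 hl.le
      have h12 : l * (C * E * max (h (rv p)) 0 - tr v h (rv p) / (C * L)) =
          l * (C * E * max (h (rv p)) 0) - l * (tr v h (rv p) / (C * L)) := by ring
      rw [h12, h10]
      linarith
  have hsum := ENNReal.tsum_le_tsum hval
  rw [ENNReal.tsum_add, ENNReal.tsum_mul_left, ENNReal.tsum_mul_left] at hsum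
  have hs1 := hs w θ' n hwpos hθ'0 hθ'1
  have hs2 := hs w θ n hwpos hθ0 hθ1
  have hθw0 : 0 < θ * w := by positivity
  have hθ'w0 : 0 < θ' * w := by positivity
  have hfin : ENNReal.ofReal (Real.exp (κ * D / E)) ≤ ENNReal.ofReal
      (C * (R / N₁ * Real.exp 1 * (K₀ / (θ' * w) ^ d) +
        Real.exp (-(L : ℝ)) * (K₀ / (θ * w) ^ d))) := by
    refine hlow.trans ?_
    have e1 : ENNReal.ofReal (R / N₁ * Real.exp 1 * (K₀ / (θ' * w) ^ d)) =
        ENNReal.ofReal (R / N₁ * Real.exp 1) * ENNReal.ofReal (K₀ / (θ' * w) ^ d) :=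
      ENNReal.ofReal_mul (by positivity)
    have e2 : ENNReal.ofReal (Real.exp (-(L : ℝ)) * (K₀ / (θ * w) ^ d)) =
        ENNReal.ofReal (Real.exp (-(L : ℝ))) * ENNReal.ofReal (K₀ / (θ * w) ^ d) :=
      ENNReal.ofReal_mul (by positivity)
    rw [ENNReal.ofReal_mul hC0.le, ENNReal.ofReal_add (by positivity) (by positivity), e1, e2]
    refine mul_le_mul_right (hsum.trans ?_) _
    exact add_le_add (mul_le_mul_right hs1 _) (mul_le_mul_right hs2 _)
  have hpos : 0 ≤ C * (R / N₁ * Real.exp 1 * (K₀ / (θ' * w) ^ d) +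
        Real.exp (-(L : ℝ)) * (K₀ / (θ * w) ^ d)) := by positivity
  have hreal := (ENNReal.ofReal_le_ofReal_iff hpos).1 hfin
  -- the two parts
  have hp1 : C * (R / N₁ * Real.exp 1 * (K₀ / (θ' * w) ^ d)) ≤ R / 2 := by
    have h1 : K₀ / (θ' * w) ^ d ≤ K₀ * B ^ (4 * d) := by
      rw [div_le_iff₀ (pow_pos hθ'w0 d)]
      have h2 : 1 ≤ B ^ 4 * (θ' * w) := by
        have h3 : θ' * w = l * w / (K₁ * L ^ 2) := by
          rw [hθ', hY]
          field_simp
        rw [h3, mul_div_assoc', le_div_iff₀ (by positivity), one_mul]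
        have h4 : B ^ 4 * (l * w) = B ^ 3 * (l * w * B) := by ring
        rw [h4]
        have h5 : B ^ 3 * 1 ≤ B ^ 3 * (l * w * B) :=
          mul_le_mul_of_nonneg_left hlw1 (by positivity)
        linarith
      have h6 : 1 ≤ (B ^ 4 * (θ' * w)) ^ d := one_le_pow₀ h2
      have h7 : K₀ * B ^ (4 * d) * (θ' * w) ^ d = K₀ * (B ^ 4 * (θ' * w)) ^ d := by
        rw [mul_pow, pow_mul]
        ring
      rw [h7]
      nlinarith
    have h8 : C * (R / N₁ * Real.exp 1 * (K₀ / (θ' * w) ^ d)) ≤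
        C * (R / N₁ * Real.exp 1 * (K₀ * B ^ (4 * d))) := by gcongr
    refine h8.trans ?_
    have h9 : C * (R / N₁ * Real.exp 1 * (K₀ * B ^ (4 * d))) =
        R / 2 * (2 * C * Real.exp 1 * K₀ / B ^ 3) := by
      rw [hN₁, pow_add]
      field_simp
    rw [h9]
    have h10 : 2 * C * Real.exp 1 * K₀ / B ^ 3 ≤ 1 := by
      rw [div_le_one (by positivity)]
      refine hn2.trans ?_
      calc B = B ^ 1 := (pow_one B).symm
        _ ≤ B ^ 3 := pow_le_pow_right₀ hB1 (by norm_num)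
    nlinarith
  have hp2 : C * (Real.exp (-(L : ℝ)) * (K₀ / (θ * w) ^ d)) ≤ 1 / 4 := by
    have h1 : K₀ / (θ * w) ^ d ≤ K₀ * (2 * C * L * B) ^ d := by
      rw [div_le_iff₀ (pow_pos hθw0 d)]
      have h2 : 1 ≤ (2 * C * L * B) * (θ * w) := by
        have h3 : (2 * C * L * B) * (θ * w) = l * w * B := by
          rw [hθ]
          field_simp
        rw [h3]
        exact hlw1
      have h4 : 1 ≤ ((2 * C * L * B) * (θ * w)) ^ d := one_le_pow₀ h2
      have h5 : K₀ * (2 * C * L * B) ^ d * (θ * w) ^ d =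
          K₀ * ((2 * C * L * B) * (θ * w)) ^ d := by
        rw [mul_pow (2 * C * L * B : ℝ)]
        ring
      rw [h5]
      nlinarith
    refine le_trans ?_ hn4
    gcongr
  rw [mul_add] at hreal
  linarith

end Pool.Agent.Helper76.GP
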